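import Pool.Agent.U856.BM.Stm1

/-! Project BM, package RV (helper416): time reversal of billiard orbits. -/

set_option autoImplicit false

open Set

namespace Pool.Agent.U416.BM.RV

open Pool.Agent.U856.BM

lemma dt_rf {n : ℂ} (hn : dt n n = 1) (f : ℂ) : dt n (rf n f) = - dt n f := by
  unfold dt at hn
  unfold rf dt
  simp only [Complex.sub_re, Complex.sub_im, Complex.real_smul, Complex.mul_re, Complex.mul_im,
    Complex.ofReal_re, Complex.ofReal_im, zero_mul, sub_zero, add_zero]
  linear_combination (-2 * (n.re * f.re + n.im * f.im)) * hn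

lemma rf_rf {n : ℂ} (hn : dt n n = 1) (f : ℂ) : rf n (rf n f) = f := by
  have h := dt_rf hn f
  have e : rf n (rf n f) = rf n f - (2 * dt n (rf n f)) • n := rfl
  rw [e, h]
  unfold rf
  module

lemma rf_neg (n f : ℂ) : rf n (-f) = - rf n f := by
  unfold rf
  have : dt n (-f) = - dt n f := by
    unfold dt
    simp only [Complex.neg_re, Complex.neg_im]
    ring
  rw [this]
  module

theorem t_RV : S_TR → S_RV := by
  intro hTR P x e y f t h
  induction h with
  | start t ht hint =>
    have h1 : Orb P (x + t • e) (-e) t (x + t • e + t • (-e)) (-e) := by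
      refine Orb.start t ht fun s hs => ?_
      have : x + t • e + s • (-e) = x + (t - s) • e := by module
      rw [this]
      exact hint _ ⟨by linarith [hs.2], by linarith [hs.1]⟩
    have h2 : x + t • e + t • (-e) = x := by module
    rwa [h2] at h1
  | bounce t s u y f n horb hs hu h1 hside h2 ih =>
    have hn : dt n n = 1 := hside.2.1
    have hr : rf n (- rf n f) = -f := by rw [rf_neg, rf_rf hn]
    have h0 : Orb P (y + s • f + u • rf n f) (- rf n f) 0 (y + s • f + u • rf n f) (- rf n f) := by
      have h3 : Orb P (y + s • f + u • rf n f) (- rf n f) 0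
          (y + s • f + u • rf n f + (0 : ℝ) • (- rf n f)) (- rf n f) := by
        refine Orb.start 0 le_rfl fun r hr' => ?_
        have : r = 0 := le_antisymm hr'.2 hr'.1
        subst this
        rw [zero_smul, add_zero]
        exact h2 u ⟨hu, le_refl _⟩
      rwa [zero_smul, add_zero] at h3
    have hz : y + s • f + u • rf n f + u • (- rf n f) = y + s • f := by module
    have h4 := Orb.bounce (P := P) (x := y + s • f + u • rf n f) (e := - rf n f) 0 u s
      (y + s • f + u • rf n f) (- rf n f) n h0 hu hs (fun r hr' => by
        have : y + s • f + u • rf n f + r • (- rf n f) = y + s • f + (u - r) • rf n f := by module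
        rw [this]
        exact h2 _ ⟨by linarith [hr'.2], by linarith [hr'.1]⟩) (by rw [hz]; exact hside)
      (fun r hr' => by
        rw [hz, hr]
        have : y + s • f + r • (-f) = y + (s - r) • f := by module
        rw [this]
        exact h1 _ ⟨by linarith [hr'.2], by linarith [hr'.1]⟩)
    rw [hz, hr] at h4
    have h5 : y + s • f + s • (-f) = y := by module
    rw [h5] at h4
    have h6 := hTR P _ _ _ _ _ _ _ _ h4 ih
    have h7 : 0 + u + s + t = t + s + u := by ring
    rwa [h7] at h6

end Pool.Agent.U416.BM.RV
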